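import Pool.Agent.Run7.h45.Grow

/-!
# The blockwise Alperin weight conjecture: all or nothing
-/

set_option autoImplicit false

namespace Pool.Agent.Results.MP_78bba1_al.AllOrNothing

open Pool.Agent.Y63.NV Pool.Agent.N85.WM Run7.h45 Filter

/-- **All or nothing.** Let `p` be a prime and `q ≥ 2` prime to `p`. If the blockwise Alperin weight
conjecture at `p` fails for some block of some finite group, then it fails badly in the groups
`M_n(ℤ/q) ⋊ S_n`: there is `ε > 0` such that for all large `n` there is a block `B` of this group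
with `l(B) > exp(ε n) w(B)` or `w(B) > exp(ε n) l(B)`. Conversely, the conjecture at `p` for all
finite groups follows if for every `ε > 0` there are infinitely many `n` such that `l(B)` and `w(B)`
differ at most by the factor `exp(ε n)` for all blocks `B` of `M_n(ℤ/q) ⋊ S_n`. -/
theorem result (p : ℕ) [Fact p.Prime] (F : Type) [Field F] [IsAlgClosed F] [CharP F p]
    (red : integralClosure ℤ ℂ →+* F) (q : ℕ) (hq : 2 ≤ q) (hpq : ¬ p ∣ q) :
    (∀ (G : Type) [Group G] [Finite G], BAWC p red G) ↔
      ∀ ε : ℝ, 0 < ε → ∃ᶠ n : ℕ in atTop, ∀ B : (MatGrp q n → F) → F, IsBlock B →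
        (numIrrBlock B : ℝ) ≤ Real.exp (ε * n) * numWts p red B ∧
        (numWts p red B : ℝ) ≤ Real.exp (ε * n) * numIrrBlock B :=
  bawc_iff_within red hq hpq

end Pool.Agent.Results.MP_78bba1_al.AllOrNothing
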