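import Pool.Agent.Run7.h45.Univ

/-!
# The blockwise Alperin weight conjecture and perfect groups with few composition factors
-/

set_option autoImplicit false

namespace Pool.Agent.Results.MP_78bba1_al.PerfectGroups

open Pool.Agent.Y63.NV Pool.Agent.N85.WM Run7.h45

/-- **Reduction to perfect groups.** Let `p` be a prime and let `q ≥ 2` be prime to `p`. Let `L i`
be a family of finite perfect groups such that every finite group embeds into some `L i`, for
example the alternating groups `A_n`, `n ≥ 5`, `n` in an infinite set `N`. The groups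
`Z(L i / H) ⋊ L i`, `H ≤ L i`, where `Z(X)` is the group of the functions `X → ℤ/q` of sum zero, are
perfect, and the blockwise Alperin weight conjecture at `p` for all finite groups is equivalent to
the congruences `l(B) ≡ w(B) mod p` for the blocks `B` of these groups. -/
theorem result (p : ℕ) [Fact p.Prime] (F : Type) [Field F] [IsAlgClosed F] [CharP F p]
    (red : integralClosure ℤ ℂ →+* F) (q : ℕ) (hq : 2 ≤ q) (hpq : ¬ p ∣ q) :
    (∀ (I : Type) (L : I → Type) [∀ i, Group (L i)] [∀ i, Finite (L i)],
      (∀ i, commutator (L i) = ⊤) →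
      (∀ (G : Type) [Group G] [Finite G], ∃ i, ∃ j : G →* L i, Function.Injective j) →
      (∀ i, ∀ H : Subgroup (L i), commutator (ZSGrp q (L i) H) = ⊤) ∧
      ((∀ (G : Type) [Group G] [Finite G], BAWC p red G) ↔
        ∀ i, ∀ H : Subgroup (L i), ∀ B : (ZSGrp q (L i) H → F) → F, IsBlock B →
          numIrrBlock B ≡ numWts p red B [MOD p])) ∧
    (∀ N : Set ℕ, N.Infinite →
      ((∀ (G : Type) [Group G] [Finite G], BAWC p red G) ↔
        ∀ n ∈ N, 5 ≤ n → ∀ H : Subgroup (alternatingGroup (Fin n)),
          commutator (ZSGrp q (alternatingGroup (Fin n)) H) = ⊤ ∧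
          ∀ B : (ZSGrp q (alternatingGroup (Fin n)) H → F) → F, IsBlock B →
            numIrrBlock B ≡ numWts p red B [MOD p])) := by
  have h0 : NeZero q := ⟨by omega⟩
  refine ⟨fun I L _ _ hp hL => ⟨fun i H => perfect_zs H (hp i), bawc_iff_family red hq hpq L hL⟩,
    fun N hN => ?_⟩
  rw [bawc_iff_alt red hq hpq N hN]
  exact ⟨fun h n hn h5 H => ⟨perfect_alt h5 H, h n hn h5 H⟩, fun h n hn h5 H => (h n hn h5 H).2⟩

end Pool.Agent.Results.MP_78bba1_al.PerfectGroups
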