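import Pool.Agent.Run7.h45.Den4

/-!
# The blockwise Alperin weight conjecture: it is enough that the exceptions are rare

`BlocksWith G P` (`Pool/Agent/Run7/h45/Den3.lean`) is the set of the `p`-blocks `B` of `G` with the
property `P`, a block being given by its central character, an algebra homomorphism from the centre of
`F[G]` (the class functions under convolution) to `F`.

Outline.  If `l(B) ≠ w(B)` for a block `B` of the finite group `G`, then for all large `n` the group `G`
embeds in `S_n` in such a way that its image is the stabilizer of at least `q ^ (n² - c n log₂ n)`
matrices in `M_n(ℤ/q)` in different orbits: the matrices describe a digraph with automorphism group `G`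
on a bounded number of points, a chain of `log₂ n + O(1)` points with loops, and further points which
are recognised by their arcs from the chain and have arbitrary entries among themselves.  The linear
characters of the normal subgroup `M_n(ℤ/q)` which are given by these matrices have the stabilizer
`M_n(ℤ/q) ⋊ G`, and over each of them there is one block `B'` of `M_n(ℤ/q) ⋊ S_n` with `l(B') = l(B)`
and `w(B') = w(B)`; different orbits give different blocks.
-/

set_option autoImplicit false

namespace Pool.Agent.Results.MP_78bba1_al.RareExceptions

open Pool.Agent.Y63.NV Pool.Agent.N85.WM Run7.h45 Filter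

/-- **Rare exceptions do not exist.** Let `p` be a prime and `q ≥ 2` prime to `p`. The blockwise
Alperin weight conjecture at `p` holds for all finite groups if (and only if) for every `C` there are
infinitely many `n` such that the proportion of the blocks `B` with `l(B) ≠ w(B)` among all blocks of
`M_n(ℤ/q) ⋊ S_n` is less than `n ^ (-C n)`. -/
theorem result (p : ℕ) [Fact p.Prime] (F : Type) [Field F] [IsAlgClosed F] [CharP F p]
    (red : integralClosure ℤ ℂ →+* F) (q : ℕ) (hq : 2 ≤ q) (hpq : ¬ p ∣ q) :
    (∀ (G : Type) [Group G] [Finite G], BAWC p red G) ↔
      ∀ C : ℕ, ∃ᶠ n : ℕ in atTop,
        (BlocksWith (F := F) (MatGrp q n) fun B => numIrrBlock B ≠ numWts p red B).ncard *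
          n ^ (C * n) < (BlocksWith (F := F) (MatGrp q n) fun _ => True).ncard :=
  bawc_iff_dens red hq hpq

end Pool.Agent.Results.MP_78bba1_al.RareExceptions
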