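import Pool.Agent.Run7.h45.Univ

/-!
# A universal family for the blockwise Alperin weight conjecture
-/

set_option autoImplicit false

namespace Pool.Agent.Results.MP_78bba1_al.UniversalFamily

open Pool.Agent.Y63.NV Pool.Agent.N85.WM Run7.h45

/-- **A universal family.** Let `p` be a prime, let `q ≥ 2` be prime to `p` and let `N` be an
infinite set of positive integers. The blockwise Alperin weight conjecture at `p` for all finite
groups is equivalent to the congruences `l(B) ≡ w(B) mod p` for the blocks `B` of the groups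
`M_n(ℤ/q) ⋊ S_n`, `n ∈ N`. -/
theorem result (p : ℕ) [Fact p.Prime] (F : Type) [Field F] [IsAlgClosed F] [CharP F p]
    (red : integralClosure ℤ ℂ →+* F) (q : ℕ) (hq : 2 ≤ q) (hpq : ¬ p ∣ q) (N : Set ℕ)
    (hN : N.Infinite) :
    (∀ (G : Type) [Group G] [Finite G], BAWC p red G) ↔
      ∀ n ∈ N, ∀ B : (MatGrp q n → F) → F, IsBlock B →
        numIrrBlock B ≡ numWts p red B [MOD p] :=
  bawc_iff_mat red hq hpq N hN

end Pool.Agent.Results.MP_78bba1_al.UniversalFamily
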